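import Pool.Agent.X78.Gab.F

/-!
# MP_aa6dd4_lc, Q2: support constrained Gabidulin codes exist for every `m ≥ n`

If `Z_1, ..., Z_k ⊆ {1, ..., n}` satisfy `|⋂_{i ∈ Ω} Z_i| + |Ω| ≤ k` for every nonempty `Ω`, then for
every prime power `q` and every `m ≥ n` some `[n,k]` Gabidulin code over `𝔽_{q^m}` has a generator
matrix `G` with `G i j = 0` for all `j ∈ Z_i`.

Proof: the `i`-th row is taken to be the word of the dual of an `[n,n-k]` Gabidulin code
`Gab(h_1, ..., h_n)` with support in the complement of `Z_i` (enlarged to size `k-1`); its entries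
are Moore minors of size `n-k` in the `h_j`, so a `k × k` minor of the matrix of these rows has
degree at most `k q^{n-k-1} < q^{n-1}` in each `h_j`, which leaves room for choosing the `h_j`
linearly independent already in `𝔽_{q^n}`.  That some minor is a nonzero polynomial is proved by a
Lovett style induction for the curve `x ↦ (x, x^q, ..., x^{q^{k-1}})` and duality over the
algebraic closure.
-/

set_option autoImplicit false

namespace Pool.Agent.Results.MP_aa6dd4_lc.GabidulinAllM

/-- `C` is an `[n,k]` Gabidulin code over `L` with respect to the subfield `F` of size `q = |F|`: there are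
`g_1, ..., g_n ∈ L`, linearly independent over `F`, such that `C` is the set of all words
`(f(g_1), ..., f(g_n))` with `f = ∑_{t < k} f_t x^{q^t}`, `f_t ∈ L`. -/
def IsGabidulin (F : Type*) {L : Type*} [Field F] [Fintype F] [Field L] [Algebra F L] {n : ℕ} (k : ℕ)
    (C : Submodule L (Fin n → L)) : Prop :=
  ∃ g : Fin n → L, LinearIndependent F g ∧
    ∀ c : Fin n → L, c ∈ C ↔ ∃ f : Fin k → L, ∀ j, c j = ∑ t, f t * g j ^ (Fintype.card F ^ (t : ℕ))

/-- `G` is a generator matrix of `C`: its rows form a basis of `C`. -/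
def IsGeneratorMatrix {L : Type*} [Field L] {n k : ℕ} (G : Matrix (Fin k) (Fin n) L)
    (C : Submodule L (Fin n → L)) : Prop :=
  LinearIndependent L (fun i => G i) ∧ Submodule.span L (Set.range fun i => G i) = C

/-- Condition `(∗)`: `|⋂_{i ∈ Ω} Z_i| + |Ω| ≤ k` for every nonempty `Ω ⊆ {1, ..., k}`. -/
def Star {n k : ℕ} (Z : Fin k → Finset (Fin n)) : Prop :=
  ∀ Ω : Finset (Fin k), Ω.Nonempty → (Finset.univ.filter fun j => ∀ i ∈ Ω, j ∈ Z i).card + Ω.card ≤ k

/-- **Q2 has a positive answer.**  For all `1 ≤ k ≤ n`, all `Z_1, ..., Z_k` with `(∗)`, every finite field `F`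
(so every prime power `q = |F|`), every `m ≥ n` and the field `L ⊇ F` with `q ^ m` elements, some `[n,k]`
Gabidulin code over `L` has a generator matrix with zeros at all positions `(i, j)`, `j ∈ Z_i`. -/
theorem result (n k : ℕ) (hk : 1 ≤ k) (hkn : k ≤ n) (Z : Fin k → Finset (Fin n)) (hZ : Star Z)
    (F L : Type) [Field F] [Fintype F] [Field L] [Fintype L] [Algebra F L] (m : ℕ)
    (hL : Fintype.card L = Fintype.card F ^ m) (hnm : n ≤ m) :
    ∃ C : Submodule L (Fin n → L), IsGabidulin F k C ∧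
      ∃ G : Matrix (Fin k) (Fin n) L, IsGeneratorMatrix G C ∧ ∀ i, ∀ j ∈ Z i, G i j = 0 := by
  have H : ∀ Ω : Finset (Fin k), Ω.Nonempty → (Ω.inf Z).card + Ω.card ≤ k := by
    intro Ω hΩ
    have h1 := hZ Ω hΩ
    have h2 : Ω.inf Z ⊆ Finset.univ.filter fun j => ∀ i ∈ Ω, j ∈ Z i := by
      intro j hj
      rw [Finset.mem_filter]
      refine ⟨Finset.mem_univ _, fun i hi => ?_⟩
      exact (show Ω.inf Z ⊆ Z i from Finset.inf_le hi) hj
    have h3 := Finset.card_le_card h2
    omega
  obtain ⟨g, hg, G, hG, hspan, hzero⟩ := Pool.Agent.X78.Gab.gab_main (F := F) (L := L) hk hkn hnm hL Z H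
  exact ⟨Pool.Agent.X78.Gab.gabidulin F k g, ⟨g, hg, fun c => Iff.rfl⟩, G, ⟨hG, hspan⟩, hzero⟩

end Pool.Agent.Results.MP_aa6dd4_lc.GabidulinAllM
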